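import Mathlib
import Pool.Agent.Lib_MP_a891d2_fs.FSExp
import Pool.Agent.Lib_MP_a891d2_fs.FSSRB
import Pool.Agent.Lib_MP_a891d2_fs.FSDom
import Pool.Agent.Lib_MP_a891d2_fs.FSSing
import Pool.Agent.Lib_MP_a891d2_fs.FSBasin

/-!
# A dissipative endomorphism of the two-torus with a fully supported non-uniformly hyperbolic SRB
# measure without dominated splitting

Problem `MP_a891d2_an`, Q1 (answer: yes). The map is the real-analytic skew product
`f (x, y) = (3 x, g_x y)` of `(ℝ/ℤ)²`, where `g_x` is the circle diffeomorphism
`tan (π g_x(y)) = a(x) tan (π y) + b(x)` with `a(x) = exp (-√2 + 3 cos (2πx))` and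
`b(x) = sin (2πx)³ / 10`. All definitions in the statement are in
`Pool/Agent/Lib_MP_a891d2_an/Defs.lean`.
-/

namespace Pool.Agent.Results.MP_a891d2_an.FullSupport

open MeasureTheory Filter Topology
open Pool.Agent.Results.MP_a891d2_an.TorusExample

/-- There are a non-invertible real-analytic local diffeomorphism `f` of the two-torus, which
preserves no probability measure that is absolutely continuous with respect to area, and an ergodic
`f`-invariant probability measure `μ` with lift `μ'` to the natural extension such that: the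
Lyapunov exponents of `μ` satisfy `χm < 0 < χp` and `χm + χp < 0`; the conditional measures of `μ'`
on unstable manifolds, pushed to the torus, are absolutely continuous with respect to arc length;
`μ` gives positive mass to every nonempty open set and is singular with respect to area; the support
of `μ'` is the whole natural extension, and there is no dominated splitting over it. Moreover the
basin of `μ` has full area. -/
theorem result :
    ∃ (F : ℝ × ℝ → ℝ × ℝ) (f : Torus → Torus) (μ : Measure Torus) (μ' : Measure (ℕ → Torus))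
      (_ : IsProbabilityMeasure μ) (_ : IsProbabilityMeasure μ') (χm χp : ℝ),
      IsEndomorphism F f ∧ IsDissipative f ∧ Ergodic f μ ∧ IsNaturalLift f μ μ' ∧
      χm < 0 ∧ 0 < χp ∧ χm + χp < 0 ∧ HasLyapunovExponents F μ' χm χp ∧ IsSRB f μ' ∧
      (∀ U : Set Torus, IsOpen U → U.Nonempty → 0 < μ U) ∧
      μ ⟂ₘ (volume : Measure Torus) ∧ μ'.support = naturalExtension f ∧
      (¬ ∃ E E' : (ℕ → Torus) → Submodule ℝ (ℝ × ℝ), IsDominatedSplitting F f μ'.support E E') ∧
      (∀ᵐ p : Torus, ∀ φ : C(Torus, ℝ),
        Tendsto (fun n : ℕ => (∑ k ∈ Finset.range n, φ (f^[k] p)) / n) atTop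
          (𝓝 (∫ p, φ p ∂μ))) := by
  have h2 : (1.4142 : ℝ) < Real.sqrt 2 := by
    apply Real.lt_sqrt_of_sq_lt
    norm_num
  have h3 : Real.log 3 < 1.4142 := by
    rw [Real.log_lt_iff_lt_exp (by norm_num)]
    have h := Real.quadratic_le_exp_of_nonneg (x := (1.4142 : ℝ)) (by norm_num)
    norm_num at h ⊢
    linarith
  exact ⟨FS.flift, FS.fmap, FS.fmu, FS.fmu', inferInstance, inferInstance, -Real.sqrt 2,
    Real.log 3, FS.isEndomorphism_fmap, FS.fisDissipative, FS.ergodic_fmap, FS.isNaturalLift_f,
    by linarith, Real.log_pos (by norm_num), by linarith, FS.fhasLyapunovExponents, FS.fisSRB,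
    fun U hU hne => FS.fmu_pos hU hne, FS.fmu_singular, FS.fsupport', FS.fno_dominated_splitting,
    FS.fbasin⟩

end Pool.Agent.Results.MP_a891d2_an.FullSupport
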